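import Pool.Agent.Helper75.KM.StmtsC

set_option autoImplicit false

namespace Pool.Agent.Helper75.KM

open MeasureTheory
open scoped ENNReal

theorem st_VOLT : ST_VOLT := by
  intro m
  have hv0 : 0 < volume (Metric.ball (0 : EE (m + 1)) 1) := Metric.measure_ball_pos volume 0 one_pos
  have hvt : volume (Metric.ball (0 : EE (m + 1)) 1) ≠ ⊤ := measure_ball_lt_top.ne
  refine ⟨(volume (Metric.ball (0 : EE (m + 1)) 1)).toReal / 4,
    div_pos (ENNReal.toReal_pos hv0.ne' hvt) (by norm_num), ?_⟩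
  intro δ a ω hδ hδ1 hω
  set v : ℝ := (volume (Metric.ball (0 : EE (m + 1)) 1)).toReal with hvdef
  have hvpos : 0 < v := ENNReal.toReal_pos hv0.ne' hvt
  have hvof : ENNReal.ofReal v = volume (Metric.ball (0 : EE (m + 1)) 1) :=
    ENNReal.ofReal_toReal hvt
  set K : ℕ := ⌊1 / (4 * δ)⌋₊ with hK
  have hx : 0 ≤ 1 / (4 * δ) := by positivity
  have hK1 : (K : ℝ) ≤ 1 / (4 * δ) := Nat.floor_le hx
  have hK2 : 1 / (4 * δ) < (K : ℝ) + 1 := Nat.lt_floor_add_one _
  have hKδ : (K : ℝ) * (2 * δ) ≤ 1 / 2 := by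
    have := mul_le_mul_of_nonneg_right hK1 (show (0 : ℝ) ≤ 2 * δ by positivity)
    have e : 1 / (4 * δ) * (2 * δ) = 1 / 2 := by field_simp; norm_num
    linarith
  let p : ℤ → EE (m + 1) := fun k => a + ((2 * (k : ℝ) * δ) • ω)
  let s : Finset ℤ := Finset.Icc (-(K : ℤ)) K
  have hcard : (s.card : ℝ) = 2 * K + 1 := by
    have h1 : s.card = 2 * K + 1 := by
      show (Finset.Icc (-(K : ℤ)) K).card = 2 * K + 1
      rw [Int.card_Icc]
      omega
    rw [h1]; push_cast; ring
  have hcard2 : 1 / (4 * δ) ≤ (s.card : ℝ) := by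
    rw [hcard]
    have : (0 : ℝ) ≤ K := Nat.cast_nonneg K
    linarith
  have hsub : (⋃ k ∈ s, Metric.ball (p k) δ) ⊆ tube δ a ω := by
    intro y hy
    simp only [Set.mem_iUnion] at hy
    obtain ⟨k, hk, hyk⟩ := hy
    have hk' := Finset.mem_Icc.mp hk
    refine ⟨2 * (k : ℝ) * δ, ?_, ?_⟩
    · have hk1 : (-(K : ℝ)) ≤ k := by exact_mod_cast hk'.1
      have hk2 : (k : ℝ) ≤ K := by exact_mod_cast hk'.2
      rw [abs_le]
      constructor
      · nlinarith
      · nlinarith
    · have := Metric.mem_ball.mp hyk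
      rw [dist_eq_norm] at this
      exact this.le
  have hdisj : Set.PairwiseDisjoint (↑s) (fun k : ℤ => Metric.ball (p k) δ) := by
    intro k _ l _ hkl
    apply Metric.ball_disjoint_ball
    have h1 : dist (p k) (p l) = 2 * δ * |(k : ℝ) - l| := by
      rw [dist_eq_norm]
      have : p k - p l = (2 * δ * ((k : ℝ) - l)) • ω := by
        show (a + ((2 * (k : ℝ) * δ) • ω)) - (a + ((2 * (l : ℝ) * δ) • ω)) = _
        rw [add_sub_add_left_eq_sub, ← sub_smul]
        ring_nf
      rw [this, norm_smul, hω, mul_one, Real.norm_eq_abs, abs_mul, abs_of_pos (by positivity)]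
    rw [h1]
    have h2 : (1 : ℝ) ≤ |(k : ℝ) - l| := by
      have h3 : (1 : ℤ) ≤ |k - l| := Int.one_le_abs (sub_ne_zero.mpr hkl)
      have h4 : ((1 : ℤ) : ℝ) ≤ ((|k - l| : ℤ) : ℝ) := by exact_mod_cast h3
      rw [Int.cast_abs] at h4
      push_cast at h4
      exact h4
    nlinarith
  have hvol : volume (⋃ k ∈ s, Metric.ball (p k) δ)
      = ∑ k ∈ s, volume (Metric.ball (p k) δ) :=
    measure_biUnion_finset hdisj (fun k _ => measurableSet_ball)
  have hball : ∀ k : ℤ, volume (Metric.ball (p k) δ) = ENNReal.ofReal (δ ^ (m + 1) * v) := by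
    intro k
    rw [Measure.addHaar_ball volume (p k) hδ.le, ENNReal.ofReal_mul (by positivity), hvof]
    have : Module.finrank ℝ (EE (m + 1)) = m + 1 := by simp [EE]
    rw [this]
  calc ENNReal.ofReal (v / 4 * δ ^ m)
      ≤ ENNReal.ofReal ((s.card : ℝ) * (δ ^ (m + 1) * v)) := by
        apply ENNReal.ofReal_le_ofReal
        have h5 : v / 4 * δ ^ m = 1 / (4 * δ) * (δ ^ (m + 1) * v) := by
          field_simp
          ring
        rw [h5]
        exact mul_le_mul_of_nonneg_right hcard2 (by positivity)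
    _ = ∑ k ∈ s, volume (Metric.ball (p k) δ) := by
        rw [Finset.sum_congr rfl (fun k _ => hball k), Finset.sum_const, nsmul_eq_mul,
          ENNReal.ofReal_mul (Nat.cast_nonneg _), ENNReal.ofReal_natCast]
    _ = volume (⋃ k ∈ s, Metric.ball (p k) δ) := hvol.symm
    _ ≤ volume (tube δ a ω) := measure_mono hsub

end Pool.Agent.Helper75.KM
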